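import Pool.Agent.Q161.Tay.Basic

/-!
# The Fekete–Szegő bound is not sharp on all of `R`

For `(α, β) = (4/3, -1/3)` and `λ = 1` one has `max (μ, |1 - λ|) = 3/2`, but the functional is
bounded by `(3/2)(1 - 1/5000)` on the class.  Writing `f = z h`, `g = 1/(1 - ω)`, the relation
`3 g h = 4 h² - h - z h'` has a resonance at order `4`, which gives a constraint among the
first four coefficients of `ω`; it is incompatible with `|c₂|` close to `1`.
-/

open Metric Set Filter Topology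

namespace Pool.Agent.Results.MP_dfd3b8_an.NotSharp

open Pool.Agent.Q161.Tay

/-- The function `g_{α,β}` attached to `f` (with value `1` at the origin, where `f(z)/z` and
`z f'(z)/f(z)` are `1` and `z f''(z)/f'(z)` is `0`). -/
noncomputable def gab (α β : ℝ) (f : ℂ → ℂ) (z : ℂ) : ℂ :=
  if z = 0 then 1 else
    α * (f z / z) + β * (z * deriv f z / f z)
      + (1 - α - β) * (1 + z * deriv (deriv f) z / deriv f z)

/-- The class `M_{α,β}`.  The conditions `defined₁`, `defined₂` say that the quotients that occur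
in `g_{α,β}` with a nonzero coefficient are defined at every point of the disc. -/
structure InM (α β : ℝ) (f : ℂ → ℂ) : Prop where
  diff : DifferentiableOn ℂ f (ball 0 1)
  zero : f 0 = 0
  one : deriv f 0 = 1
  defined₁ : β ≠ 0 → ∀ z ∈ ball (0 : ℂ) 1, z ≠ 0 → f z ≠ 0
  defined₂ : 1 - α - β ≠ 0 → ∀ z ∈ ball (0 : ℂ) 1, deriv f z ≠ 0
  re : ∀ z ∈ ball (0 : ℂ) 1, (α + β) / 2 < (gab α β f z).re

/-- The Fekete–Szegő functional `a₃ - λ a₂²`, `a_k = f^{(k)}(0)/k!`. -/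
noncomputable def Phi (f : ℂ → ℂ) (l : ℂ) : ℂ :=
  iteratedDeriv 3 f 0 / (Nat.factorial 3 : ℂ) - l * (iteratedDeriv 2 f 0 / (Nat.factorial 2 : ℂ)) ^ 2

/-- The constant `μ(α, β)`. -/
noncomputable def mu (α β : ℝ) : ℝ := (2 - α - β) / (6 - 5 * α - 4 * β)

/-- The algebra of the coefficients. -/
lemma algebra {c1 c2 c3 c4 g1 g2 g3 g4 h1 h2 h3 h4 : ℂ}
    (e1 : g1 = c1) (e2 : g2 = c2 + c1 * g1) (e3 : g3 = c3 + c2 * g1 + c1 * g2)
    (e4 : g4 = c4 + c3 * g1 + c2 * g2 + c1 * g3)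
    (r1 : 3 * (h1 + g1) = 8 * h1 - 2 * h1)
    (r2 : 3 * (h2 + g1 * h1 + g2) = 4 * (2 * h2 + h1 * h1) - 3 * h2)
    (r3 : 3 * (h3 + g1 * h2 + g2 * h1 + g3) = 4 * (2 * h3 + 2 * h1 * h2) - 4 * h3)
    (r4 : 3 * (h4 + g1 * h3 + g2 * h2 + g3 * h1 + g4)
      = 4 * (2 * h4 + 2 * h1 * h3 + h2 * h2) - 5 * h4)
    (hb : ‖c1‖ ^ 2 + ‖c2‖ ^ 2 + ‖c3‖ ^ 2 + ‖c4‖ ^ 2 ≤ 1) :
    h2 - h1 ^ 2 = 3 / 2 * c2 ∧ ‖c2‖ ≤ 1 - 1 / 5000 := by
  have x1 : h1 = c1 := by linear_combination (1/3 : ℂ) * (-r1) + e1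
  subst x1
  subst e1
  have x2 : g2 = c2 + g1 ^ 2 := by rw [e2]; ring
  subst x2
  have y2 : h2 = 3 / 2 * c2 + g1 ^ 2 := by linear_combination (-1/2 : ℂ) * r2
  subst y2
  refine ⟨by ring, ?_⟩
  by_contra hcon
  push Not at hcon
  -- smallness of the other coefficients
  have hc2 : (1 - 1 / 5000 : ℝ) ^ 2 < ‖c2‖ ^ 2 := by
    apply pow_lt_pow_left₀ hcon (by norm_num) two_ne_zero
  have hc2le : ‖c2‖ ≤ 1 := by
    have : ‖c2‖ ^ 2 ≤ 1 := by nlinarith [sq_nonneg ‖g1‖, sq_nonneg ‖c3‖, sq_nonneg ‖c4‖]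
    exact (sq_le_one_iff₀ (norm_nonneg _)).mp this
  have hsmall : ∀ x : ℝ, 0 ≤ x → x ^ 2 ≤ 1 / 2500 → x ≤ 1 / 50 := by
    intro x hx h
    by_contra h'
    push Not at h'
    nlinarith
  have s1 : ‖g1‖ ≤ 1 / 50 := hsmall _ (norm_nonneg _)
    (by nlinarith [sq_nonneg ‖c3‖, sq_nonneg ‖c4‖])
  have s3 : ‖c3‖ ≤ 1 / 50 := hsmall _ (norm_nonneg _)
    (by nlinarith [sq_nonneg ‖g1‖, sq_nonneg ‖c4‖])
  have s4 : ‖c4‖ ≤ 1 / 50 := hsmall _ (norm_nonneg _)
    (by nlinarith [sq_nonneg ‖g1‖, sq_nonneg ‖c3‖])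
  have x3 : g3 = c3 + 2 * g1 * c2 + g1 ^ 3 := by rw [e3]; ring
  have y3 : h3 = 3 * g3 - 5 * g1 * (3 / 2 * c2 + g1 ^ 2) + 3 * g1 * (c2 + g1 ^ 2) := by
    linear_combination (1 : ℂ) * (-r3)
  have x4 : g4 = c4 + c3 * g1 + c2 * (c2 + g1 ^ 2) + g1 * g3 := by rw [e4]
  have key : (3 / 2 : ℂ) * c2 ^ 2 = 3 * (c4 + c3 * g1 + c2 * g1 ^ 2 + g1 * g3)
      - 5 * g1 * h3 + 3 * g3 * g1 - 12 * c2 * g1 ^ 2 - 4 * g1 ^ 4
      + (15 / 2) * c2 * g1 ^ 2 + 3 * g1 ^ 4 := by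
    rw [x4] at r4
    linear_combination (-1 : ℂ) * r4
  -- norms
  have n3 : ‖g3‖ ≤ 1 / 10 := by
    rw [x3]
    calc ‖c3 + 2 * g1 * c2 + g1 ^ 3‖ ≤ ‖c3‖ + ‖2 * g1 * c2‖ + ‖g1 ^ 3‖ := norm_add₃_le
      _ = ‖c3‖ + 2 * ‖g1‖ * ‖c2‖ + ‖g1‖ ^ 3 := by
          rw [norm_mul, norm_mul, norm_pow]; norm_num
      _ ≤ 1 / 50 + 2 * (1 / 50) * 1 + (1 / 50) ^ 3 := by gcongr
      _ ≤ 1 / 10 := by norm_num
  have nh3 : ‖h3‖ ≤ 1 := by
    rw [y3]
    calc ‖3 * g3 - 5 * g1 * (3 / 2 * c2 + g1 ^ 2) + 3 * g1 * (c2 + g1 ^ 2)‖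
        ≤ ‖3 * g3 - 5 * g1 * (3 / 2 * c2 + g1 ^ 2)‖ + ‖3 * g1 * (c2 + g1 ^ 2)‖ := norm_add_le _ _
      _ ≤ (‖3 * g3‖ + ‖5 * g1 * (3 / 2 * c2 + g1 ^ 2)‖) + ‖3 * g1 * (c2 + g1 ^ 2)‖ := by
          gcongr; exact norm_sub_le _ _
      _ ≤ (3 * (1 / 10) + 5 * (1 / 50) * (3 / 2 * 1 + (1 / 50) ^ 2))
          + 3 * (1 / 50) * (1 + (1 / 50) ^ 2) := by
          have a1 : ‖3 / 2 * c2 + g1 ^ 2‖ ≤ 3 / 2 * 1 + (1 / 50) ^ 2 := by
            refine (norm_add_le _ _).trans ?_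
            rw [norm_mul, norm_pow]
            norm_num
            have : ‖g1‖ ^ 2 ≤ (1 / 50) ^ 2 := by gcongr
            linarith
          have a2 : ‖c2 + g1 ^ 2‖ ≤ 1 + (1 / 50) ^ 2 := by
            refine (norm_add_le _ _).trans ?_
            rw [norm_pow]
            have : ‖g1‖ ^ 2 ≤ (1 / 50) ^ 2 := by gcongr
            linarith
          rw [norm_mul, norm_mul, norm_mul, norm_mul, norm_mul]
          simp only [Complex.norm_ofNat]
          gcongr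
      _ ≤ 1 := by norm_num
  have hfin : ‖(3 / 2 : ℂ) * c2 ^ 2‖ ≤ 1 := by
    rw [key]
    have b1 : ‖3 * (c4 + c3 * g1 + c2 * g1 ^ 2 + g1 * g3)‖
        ≤ 3 * (1 / 50 + 1 / 50 * (1 / 50) + 1 * (1 / 50) ^ 2 + 1 / 50 * (1 / 10)) := by
      rw [norm_mul, Complex.norm_ofNat]
      gcongr
      refine (norm_add_le _ _).trans ?_
      refine add_le_add ((norm_add₃_le).trans ?_) ?_
      · rw [norm_mul, norm_mul, norm_pow]; gcongr
      · rw [norm_mul]; gcongr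
    have b2 : ‖5 * g1 * h3‖ ≤ 5 * (1 / 50) * 1 := by
      rw [norm_mul, norm_mul, Complex.norm_ofNat]; gcongr
    have b3 : ‖3 * g3 * g1‖ ≤ 3 * (1 / 10) * (1 / 50) := by
      rw [norm_mul, norm_mul, Complex.norm_ofNat]; gcongr
    have b4 : ‖12 * c2 * g1 ^ 2‖ ≤ 12 * 1 * (1 / 50) ^ 2 := by
      rw [norm_mul, norm_mul, Complex.norm_ofNat, norm_pow]; gcongr
    have b5 : ‖4 * g1 ^ 4‖ ≤ 4 * (1 / 50) ^ 4 := by
      rw [norm_mul, Complex.norm_ofNat, norm_pow]; gcongr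
    have b6 : ‖(15 / 2) * c2 * g1 ^ 2‖ ≤ 15 / 2 * 1 * (1 / 50) ^ 2 := by
      rw [norm_mul, norm_mul, norm_pow, norm_div, Complex.norm_ofNat, Complex.norm_ofNat]; gcongr
    have b7 : ‖3 * g1 ^ 4‖ ≤ 3 * (1 / 50) ^ 4 := by
      rw [norm_mul, Complex.norm_ofNat, norm_pow]; gcongr
    have t1 := norm_add_le (3 * (c4 + c3 * g1 + c2 * g1 ^ 2 + g1 * g3)
      - 5 * g1 * h3 + 3 * g3 * g1 - 12 * c2 * g1 ^ 2 - 4 * g1 ^ 4
      + (15 / 2) * c2 * g1 ^ 2) (3 * g1 ^ 4)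
    have t2 := norm_add_le (3 * (c4 + c3 * g1 + c2 * g1 ^ 2 + g1 * g3)
      - 5 * g1 * h3 + 3 * g3 * g1 - 12 * c2 * g1 ^ 2 - 4 * g1 ^ 4) ((15 / 2) * c2 * g1 ^ 2)
    have t3 := norm_sub_le (3 * (c4 + c3 * g1 + c2 * g1 ^ 2 + g1 * g3)
      - 5 * g1 * h3 + 3 * g3 * g1 - 12 * c2 * g1 ^ 2) (4 * g1 ^ 4)
    have t4 := norm_sub_le (3 * (c4 + c3 * g1 + c2 * g1 ^ 2 + g1 * g3)
      - 5 * g1 * h3 + 3 * g3 * g1) (12 * c2 * g1 ^ 2)
    have t5 := norm_add_le (3 * (c4 + c3 * g1 + c2 * g1 ^ 2 + g1 * g3)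
      - 5 * g1 * h3) (3 * g3 * g1)
    have t6 := norm_sub_le (3 * (c4 + c3 * g1 + c2 * g1 ^ 2 + g1 * g3)) (5 * g1 * h3)
    linarith
  rw [norm_mul, norm_pow, norm_div, Complex.norm_ofNat, Complex.norm_ofNat] at hfin
  nlinarith

/-- The main estimate. -/
lemma main {f : ℂ → ℂ} (hf : InM (4 / 3) (-1 / 3) f) :
    ‖tc f 3 - (tc f 2) ^ 2‖ ≤ 3 / 2 * (1 - 1 / 5000) := by
  have hball : ball (0 : ℂ) 1 ∈ 𝓝 (0 : ℂ) := ball_mem_nhds _ one_pos
  -- `f = z h`
  set h : ℂ → ℂ := dslope f 0 with hh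
  have hd : DifferentiableOn ℂ h (ball 0 1) := (Complex.differentiableOn_dslope hball).mpr hf.diff
  have hfz : ∀ z, f z = z * h z := by
    intro z
    have := sub_smul_dslope f 0 z
    rw [hf.zero, sub_zero, sub_zero, smul_eq_mul] at this
    exact this.symm
  have h0 : h 0 = 1 := by rw [hh, dslope_same, hf.one]
  have hne : ∀ z ∈ ball (0 : ℂ) 1, h z ≠ 0 := by
    intro z hz
    by_cases hz0 : z = 0
    · rw [hz0, h0]; exact one_ne_zero
    · intro hcon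
      exact hf.defined₁ (by norm_num) z hz hz0 (by rw [hfz, hcon, mul_zero])
  have hhd : ∀ z ∈ ball (0 : ℂ) 1, HasDerivAt h (deriv h z) z := fun z hz =>
    (hd.differentiableAt (isOpen_ball.mem_nhds hz)).hasDerivAt
  have hfd : ∀ z ∈ ball (0 : ℂ) 1, deriv f z = h z + z * deriv h z := by
    intro z hz
    have h1 : HasDerivAt (fun z => z * h z) (1 * h z + z * deriv h z) z :=
      (hasDerivAt_id' z).fun_mul (hhd z hz)
    have h2 : f = fun z => z * h z := funext hfz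
    rw [h2, h1.deriv, one_mul]
  -- the function `g`
  set g : ℂ → ℂ := fun z => (4 * h z - 1 - z * deriv h z / h z) / 3 with hg
  have hgg : ∀ z ∈ ball (0 : ℂ) 1, gab (4 / 3) (-1 / 3) f z = g z := by
    intro z hz
    unfold gab
    by_cases hz0 : z = 0
    · rw [if_pos hz0, hz0, hg]
      simp [h0]; norm_num
    · rw [if_neg hz0, hfd z hz, hfz z, hg]
      have := hne z hz
      push_cast
      field_simp
      ring
  have hgd : DifferentiableOn ℂ g (ball 0 1) := by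
    have hdd : DifferentiableOn ℂ (deriv h) (ball 0 1) := hd.deriv isOpen_ball
    rw [hg]
    apply DifferentiableOn.div_const
    apply DifferentiableOn.sub
    · exact (hd.const_mul 4).sub_const 1
    · exact (differentiableOn_id.mul hdd).div hd hne
  have hgre : ∀ z ∈ ball (0 : ℂ) 1, 1 / 2 < (g z).re := by
    intro z hz
    have := hf.re z hz
    rw [hgg z hz] at this
    linarith
  have hgne : ∀ z ∈ ball (0 : ℂ) 1, g z ≠ 0 := by
    intro z hz hcon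
    have := hgre z hz
    rw [hcon] at this
    simp at this
    linarith
  have hg0 : g 0 = 1 := by rw [hg]; simp [h0]; norm_num
  -- the Schwarz function
  set ω : ℂ → ℂ := fun z => 1 - 1 / g z with hω
  have hωd : DifferentiableOn ℂ ω (ball 0 1) := by
    rw [hω]
    exact (differentiableOn_const 1).sub ((differentiableOn_const 1).div hgd hgne)
  have hωb : ∀ z ∈ ball (0 : ℂ) 1, ‖ω z‖ ≤ 1 := by
    intro z hz
    have h1 := hgre z hz
    have h2 := hgne z hz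
    have h3 : ω z = (g z - 1) / g z := by rw [hω]; field_simp
    rw [h3, norm_div, div_le_one (norm_pos_iff.mpr h2)]
    rw [← sq_le_sq₀ (norm_nonneg _) (norm_nonneg _), Complex.sq_norm, Complex.sq_norm,
      Complex.normSq_apply, Complex.normSq_apply]
    simp only [Complex.sub_re, Complex.one_re, Complex.sub_im, Complex.one_im, sub_zero]
    nlinarith
  -- analyticity at zero
  have ah : AnalyticAt ℂ h 0 := hd.analyticAt hball
  have ag : AnalyticAt ℂ g 0 := hgd.analyticAt hball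
  have aω : AnalyticAt ℂ ω 0 := hωd.analyticAt hball
  -- the coefficient relations
  have E : ∀ n, tc (fun z => ω z * g z) n = tc g n - tc (fun _ => (1 : ℂ)) n := by
    intro n
    rw [← tc_sub ag analyticAt_const]
    apply tc_congr
    filter_upwards [hball] with z hz
    have := hgne z hz
    rw [hω]; field_simp
  have R : ∀ n, tc (fun z => 3 * (g z * h z)) n
      = tc (fun z => 4 * (h z * h z) - (h z + z * deriv h z)) n := by
    intro n
    apply tc_congr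
    filter_upwards [hball] with z hz
    have := hne z hz
    rw [hg]; field_simp
    ring
  have R' : ∀ n, 3 * tc (fun z => g z * h z) n
      = 4 * tc (fun z => h z * h z) n - (tc h n + n * tc h n) := by
    intro n
    have := R n
    have ahh : AnalyticAt ℂ (fun z => 4 * (h z * h z)) 0 := analyticAt_const.mul (ah.mul ah)
    have ad : AnalyticAt ℂ (fun z => z * deriv h z) 0 := analyticAt_id.mul ah.deriv
    have aad : AnalyticAt ℂ (fun z => h z + z * deriv h z) 0 := ah.add ad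
    rw [tc_const_mul, tc_sub ahh aad, tc_const_mul, tc_add ah ad, tc_euler ah] at this
    exact this
  have hg0' : tc g 0 = 1 := by rw [tc_zero, hg0]
  have hh0' : tc h 0 = 1 := by rw [tc_zero, h0]
  have hω0' : tc ω 0 = 0 := by rw [tc_zero, hω]; simp [hg0]
  have E1 := E 1
  have E2 := E 2
  have E3 := E 3
  have E4 := E 4
  rw [tc_mul aω ag, tc_const] at E1 E2 E3 E4
  have R1 := R' 1
  have R2 := R' 2
  have R3 := R' 3
  have R4 := R' 4
  rw [tc_mul ag ah, tc_mul ah ah] at R1 R2 R3 R4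
  simp only [Finset.sum_range_succ, Finset.sum_range_zero, hg0', hh0', hω0'] at E1 E2 E3 E4 R1 R2 R3 R4
  norm_num at E1 E2 E3 E4 R1 R2 R3 R4
  have hbes := bessel_ball hωd hωb {1, 2, 3, 4}
  have hsum : ∑ k ∈ ({1, 2, 3, 4} : Finset ℕ), ‖tc ω k‖ ^ 2
      = ‖tc ω 1‖ ^ 2 + ‖tc ω 2‖ ^ 2 + ‖tc ω 3‖ ^ 2 + ‖tc ω 4‖ ^ 2 := by
    rw [Finset.sum_insert (by decide), Finset.sum_insert (by decide),
      Finset.sum_insert (by decide), Finset.sum_singleton]
    ring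
  rw [hsum] at hbes
  obtain ⟨q1, q2⟩ := algebra (c1 := tc ω 1) (c2 := tc ω 2) (c3 := tc ω 3) (c4 := tc ω 4)
    (g1 := tc g 1) (g2 := tc g 2) (g3 := tc g 3) (g4 := tc g 4)
    (h1 := tc h 1) (h2 := tc h 2) (h3 := tc h 3) (h4 := tc h 4)
    (by linear_combination -E1) (by linear_combination -E2) (by linear_combination -E3)
    (by linear_combination -E4) (by linear_combination R1) (by linear_combination R2)
    (by linear_combination R3) (by linear_combination R4) hbes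
  have f2 : tc f 2 = tc h 1 := by
    rw [show f = fun z => z * h z from funext hfz]
    exact tc_id_mul ah 1
  have f3 : tc f 3 = tc h 2 := by
    rw [show f = fun z => z * h z from funext hfz]
    exact tc_id_mul ah 2
  rw [f2, f3, q1, norm_mul]
  have : ‖(3 / 2 : ℂ)‖ = 3 / 2 := by norm_num
  rw [this]
  linarith

/-- The class is not empty: it contains the identity. -/
lemma id_mem : InM (4 / 3) (-1 / 3) (fun z => z) := by
  have hd : deriv (fun z : ℂ => z) = fun _ => 1 := by funext z; exact deriv_id z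
  refine ⟨differentiableOn_id, rfl, by rw [hd], fun _ z _ hz => hz, fun _ z _ => ?_, ?_⟩
  · rw [hd]; exact one_ne_zero
  · intro z _
    unfold gab
    split_ifs with hz
    · norm_num
    · rw [hd]
      simp only [deriv_const, mul_zero, zero_div, add_zero, mul_one, div_self hz]
      norm_num

/-- **Negative answer to Q1**: there are `(α, β)` in the region `R` (namely `(4/3, -1/3)`) and
`λ` (namely `1`) such that the functional `|a₃ - λ a₂²|` has on `M_{α,β}` an upper bound strictly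
smaller than `max (μ, |1 - λ|)`. -/
theorem result : ∃ α β : ℝ, (α + β < 2 ∧ 5 * α + 4 * β < 6) ∧ (∃ f, InM α β f) ∧
    ∃ (l : ℂ) (c : ℝ), c < max (mu α β) ‖1 - l‖ ∧ ∀ f : ℂ → ℂ, InM α β f → ‖Phi f l‖ ≤ c := by
  refine ⟨4 / 3, -1 / 3, ⟨by norm_num, by norm_num⟩, ⟨_, id_mem⟩, 1,
    3 / 2 * (1 - 1 / 5000), ?_, ?_⟩
  · apply lt_max_of_lt_left
    unfold mu
    norm_num
  · intro f hf
    have h1 := main hf
    have h2 : Phi f 1 = tc f 3 - (tc f 2) ^ 2 := by unfold Phi tc; ring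
    rw [h2]; exact h1

end Pool.Agent.Results.MP_dfd3b8_an.NotSharp
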